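import Pool.Agent.N116.EW.Defs

/-!
# Probabilities of local events for pairs of configurations
-/

set_option autoImplicit false

namespace Pool.Agent.N861.EW

open H974 H12S H389NS H984N H984P H342P Finset
open Pool.Agent.W424.OD (AE Cl A3v)
open Pool.Agent.N116.EW

theorem ok_cw {η : ℝ} (h0 : 0 ≤ η) (h1 : η ≤ 1) : Ok (cw η) := by
  intro i
  unfold cw
  split_ifs
  · norm_num
  · exact ⟨h0, h1⟩

theorem mem_ba {K : Finset (Edg × Bool)} {e : Edg} : e ∈ ba K ↔ (e, true) ∈ K := by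
  unfold ba
  simp only [mem_image, mem_filter]
  constructor
  · rintro ⟨⟨e', b⟩, ⟨h, hb⟩, rfl⟩
    simp only at hb
    rw [hb] at h
    exact h
  · intro h
    exact ⟨(e, true), ⟨h, rfl⟩, rfl⟩

theorem mem_fl {K : Finset (Edg × Bool)} {e : Edg} :
    e ∈ Pool.Agent.N116.EW.fl K ↔ (e, false) ∈ K := by
  unfold Pool.Agent.N116.EW.fl
  simp only [mem_image, mem_filter]
  constructor
  · rintro ⟨⟨e', b⟩, ⟨h, hb⟩, rfl⟩
    simp only at hb
    rw [hb] at h
    exact h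
  · intro h
    exact ⟨(e, false), ⟨h, rfl⟩, rfl⟩

theorem mem_CE {S : Finset Edg} {i : Edg × Bool} : i ∈ CE S ↔ i.1 ∈ S := by
  unfold CE
  rw [mem_product]
  simp

theorem ba_inter (K : Finset (Edg × Bool)) (T : Finset Edg) : ba (K ∩ CE T) = ba K ∩ T := by
  ext e
  simp only [mem_ba, mem_inter, mem_CE]

theorem fl_inter (K : Finset (Edg × Bool)) (T : Finset Edg) :
    Pool.Agent.N116.EW.fl (K ∩ CE T) = Pool.Agent.N116.EW.fl K ∩ T := by
  ext e
  simp only [mem_fl, mem_inter, mem_CE]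

theorem lo_inter (b : Bool) (K : Finset (Edg × Bool)) (T : Finset Edg) :
    lo b (K ∩ CE T) = lo b K ∩ T := by
  ext e
  unfold lo
  cases b
  · simp only [Bool.false_eq_true, if_false, ba_inter, fl_inter, mem_sdiff, mem_inter]
    tauto
  · simp only [if_true, ba_inter, mem_inter]

theorem up_inter (b : Bool) (K : Finset (Edg × Bool)) (T : Finset Edg) :
    up b (K ∩ CE T) = up b K ∩ T := by
  ext e
  unfold up
  cases b
  · simp only [Bool.false_eq_true, if_false, ba_inter, mem_inter]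
  · simp only [if_true, ba_inter, fl_inter, mem_union, mem_inter]
    tauto

theorem lo_sub_up (b : Bool) (K : Finset (Edg × Bool)) : lo b K ⊆ up b K := by
  intro e
  unfold lo up
  cases b
  · simp only [Bool.false_eq_true, if_false, mem_sdiff]
    tauto
  · simp only [if_true, mem_union]
    tauto

/-- the event looks only at `T` -/
def Lc (T : Finset Edg) (A : Finset Edg → Finset Edg → Prop) : Prop :=
  ∀ F G, A F G ↔ A (F ∩ T) (G ∩ T)

theorem Lc.mono {T T' : Finset Edg} {A : Finset Edg → Finset Edg → Prop} (h : Lc T A)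
    (hT : T ⊆ T') : Lc T' A := by
  intro F G
  rw [h F G, h (F ∩ T') (G ∩ T')]
  have e : ∀ X : Finset Edg, X ∩ T' ∩ T = X ∩ T := by
    intro X
    rw [inter_assoc, inter_eq_right.2 hT]
  rw [e, e]

theorem Lc.and {T T' : Finset Edg} {A B : Finset Edg → Finset Edg → Prop} (h : Lc T A)
    (h' : Lc T' B) : Lc (T ∪ T') (fun F G => A F G ∧ B F G) := by
  intro F G
  exact and_congr (h.mono subset_union_left F G) (h'.mono subset_union_right F G)

theorem PC_nonneg {b : Bool} {η : ℝ} (h0 : 0 ≤ η) (h1 : η ≤ 1) (S : Finset Edg)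
    (A : Finset Edg → Finset Edg → Prop) : 0 ≤ PC b η S A := Pr_nonneg (ok_cw h0 h1) _ _

theorem PC_le_one {b : Bool} {η : ℝ} (h0 : 0 ≤ η) (h1 : η ≤ 1) (S : Finset Edg)
    (A : Finset Edg → Finset Edg → Prop) : PC b η S A ≤ 1 := Pr_le_one (ok_cw h0 h1) _ _

theorem PC_mono {b : Bool} {η : ℝ} (h0 : 0 ≤ η) (h1 : η ≤ 1) {S : Finset Edg}
    {A B : Finset Edg → Finset Edg → Prop} (h : ∀ F G, F ⊆ G → A F G → B F G) :
    PC b η S A ≤ PC b η S B :=
  Pr_mono (ok_cw h0 h1) fun K _ => h _ _ (lo_sub_up b K)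

theorem PC_or_le {b : Bool} {η : ℝ} (h0 : 0 ≤ η) (h1 : η ≤ 1) (S : Finset Edg)
    (A B : Finset Edg → Finset Edg → Prop) :
    PC b η S (fun F G => A F G ∨ B F G) ≤ PC b η S A + PC b η S B :=
  Pr_or_le (ok_cw h0 h1) _ _ _

theorem PC_exists_le {b : Bool} {η : ℝ} (h0 : 0 ≤ η) (h1 : η ≤ 1) (S : Finset Edg)
    {ι : Type*} [DecidableEq ι] (J : Finset ι) (A : ι → Finset Edg → Finset Edg → Prop) :
    PC b η S (fun F G => ∃ j ∈ J, A j F G) ≤ ∑ j ∈ J, PC b η S (A j) := by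
  induction J using Finset.induction_on with
  | empty =>
    have : PC b η S (fun F G => ∃ j ∈ (∅ : Finset ι), A j F G) = 0 := by
      unfold PC Pr
      rw [Ex_congr (g := fun _ => 0) (fun F _ => ind_not_of (by simp)), Ex_const]
    rw [this]
    simp
  | insert a J ha ih =>
    rw [Finset.sum_insert ha]
    refine le_trans ?_ (add_le_add_right ih _)
    refine le_trans (PC_mono h0 h1 ?_) (PC_or_le h0 h1 S _ _)
    rintro F G _ ⟨j, hj, hA⟩
    rcases Finset.mem_insert.mp hj with h | h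
    · exact Or.inl (h ▸ hA)
    · exact Or.inr ⟨j, h, hA⟩

theorem PC_local {b : Bool} {η : ℝ} {S S' : Finset Edg} (h : S' ⊆ S)
    {A : Finset Edg → Finset Edg → Prop} (hA : Lc S' A) : PC b η S A = PC b η S' A := by
  unfold PC
  refine Pr_local ?_ ?_
  · intro i hi
    rw [mem_CE] at hi ⊢
    exact h hi
  · intro K _
    rw [lo_inter, up_inter]
    exact hA _ _

theorem PC_indep {b : Bool} {η : ℝ} {S T1 T2 : Finset Edg} (hT1 : T1 ⊆ S) (hT2 : T2 ⊆ S)
    (hd : Disjoint T1 T2) {A B : Finset Edg → Finset Edg → Prop} (hA : Lc T1 A) (hB : Lc T2 B) :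
    PC b η S (fun F G => A F G ∧ B F G) = PC b η S A * PC b η S B := by
  unfold PC
  refine Pr_indep (S := CE T1) (T := CE T2) ?_ ?_ ?_ ?_ ?_
  · intro i hi
    rw [mem_CE] at hi ⊢
    exact hT1 hi
  · intro i hi
    rw [mem_CE] at hi ⊢
    exact hT2 hi
  · rw [disjoint_left]
    intro i hi hi'
    rw [mem_CE] at hi hi'
    exact disjoint_left.1 hd hi hi'
  · intro K _
    rw [lo_inter, up_inter]
    exact hA _ _
  · intro K _
    rw [lo_inter, up_inter]
    exact hB _ _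

/-- the marginal law of the base configuration -/
theorem Pr_ba (η : ℝ) (S : Finset Edg) (A : Finset Edg → Prop) :
    Pr (cw η) (CE S) (fun K => A (ba K)) = Pr (fun _ => (1 / 2 : ℝ)) S A := by
  let φ : Edg ↪ Edg × Bool := ⟨fun e => (e, true), fun a b h => (Prod.mk.inj h).1⟩
  have h1 : Pr (cw η) (CE S) (fun K => A (ba K)) = Pr (cw η) (S.map φ) (fun K => A (ba K)) := by
    refine Pr_local ?_ ?_
    · intro i hi
      obtain ⟨e, he, rfl⟩ := mem_map.1 hi
      rw [mem_CE]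
      exact he
    · intro K hK
      have : ba (K ∩ S.map φ) = ba K := by
        ext e
        rw [mem_ba, mem_ba, mem_inter]
        constructor
        · exact fun h => h.1
        · intro h
          refine ⟨h, mem_map.2 ⟨e, ?_, rfl⟩⟩
          have := hK h
          rwa [mem_CE] at this
      rw [this]
  rw [h1, Pr_map]
  have h2 : (fun e => cw η (φ e)) = fun _ => (1 / 2 : ℝ) := by
    funext e
    simp [cw, φ]
  rw [h2]
  refine Pr_congr fun F _ => ?_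
  have : ba (F.map φ) = F := by
    ext e
    rw [mem_ba, mem_map]
    constructor
    · rintro ⟨e', he', h⟩
      have h4 := (Prod.mk.inj h).1
      rwa [← h4]
    · intro h
      exact ⟨e, h, rfl⟩
  rw [this]

theorem PC_up_false (η : ℝ) (S : Finset Edg) (A : Finset Edg → Prop) :
    PC false η S (fun _ G => A G) = Pr (fun _ => (1 / 2 : ℝ)) S A := by
  rw [← Pr_ba η S A]
  rfl

theorem PC_lo_true (η : ℝ) (S : Finset Edg) (A : Finset Edg → Prop) :
    PC true η S (fun F _ => A F) = Pr (fun _ => (1 / 2 : ℝ)) S A := by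
  rw [← Pr_ba η S A]
  rfl

theorem Pr_two {E : Type*} [DecidableEq E] (p : E → ℝ) {a b : E} (hab : a ≠ b) :
    Pr p (insert a {b}) (fun K => a ∈ K ∧ b ∈ K) = p a * p b := by
  have hb : ({b} : Finset E) = insert b ∅ := by simp
  unfold Pr
  rw [Ex_insert p (by simpa using hab), hb, Ex_insert p (by simp), Ex_insert p (by simp),
    Ex_empty, Ex_empty, Ex_empty, Ex_empty]
  have e1 : ind (a ∈ insert a (insert b (∅ : Finset E)) ∧ b ∈ insert a (insert b (∅ : Finset E)))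
      = 1 := ind_of (by simp)
  have e2 : ind (a ∈ insert a (∅ : Finset E) ∧ b ∈ insert a (∅ : Finset E)) = 0 :=
    ind_not_of (by simp [hab.symm])
  have e3 : ind (a ∈ insert b (∅ : Finset E) ∧ b ∈ insert b (∅ : Finset E)) = 0 :=
    ind_not_of (by simp [hab])
  have e4 : ind (a ∈ (∅ : Finset E) ∧ b ∈ (∅ : Finset E)) = 0 := ind_not_of (by simp)
  rw [e1, e2, e3, e4]
  ring

/-- probability of a flipped edge -/
theorem PC_flip {η : ℝ} {S : Finset Edg} {e : Edg} (he : e ∈ S) :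
    PC false η S (fun F G => e ∈ G ∧ e ∉ F) = η / 2 := by
  have h1 : PC false η S (fun F G => e ∈ G ∧ e ∉ F) =
      Pr (cw η) (insert (e, true) {(e, false)}) (fun K => (e, true) ∈ K ∧ (e, false) ∈ K) := by
    unfold PC
    rw [← Pr_local (S := CE S) (S' := insert (e, true) {(e, false)})]
    · refine Pr_congr fun K _ => ?_
      unfold lo up
      simp only [Bool.false_eq_true, if_false, mem_sdiff, mem_ba, mem_fl]
      tauto
    · intro i hi
      rw [mem_CE]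
      rw [mem_insert, mem_singleton] at hi
      rcases hi with rfl | rfl <;> exact he
    · intro K _
      simp
  rw [h1, Pr_two _ (by simp)]
  simp [cw]
  ring

theorem Lc_flip (e : Edg) : Lc {e} (fun F G => e ∈ G ∧ e ∉ F) := by
  intro F G
  simp

/-! ### locality of the mixed arm events -/

theorem Cl_congr {c : ℤ × ℤ} {d k : ℕ} {F F' : Set Edg} (h : F ∩ AE c d k = F' ∩ AE c d k)
    (u : Vtx) : Pool.Agent.W424.OD.Cl c d k F u = Pool.Agent.W424.OD.Cl c d k F' u := by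
  unfold Pool.Agent.W424.OD.Cl
  rw [h]

theorem XA_congr {c : ℤ × ℤ} {d k : ℕ} {F G F' G' : Set Edg}
    (h : F ∩ AE c d k = F' ∩ AE c d k) (h' : G ∩ AE c d k = G' ∩ AE c d k) :
    XA c d k F G ↔ XA c d k F' G' := by
  have e1 : ∀ u, Cl c d k F u = Cl c d k F' u := Cl_congr h
  have e2 : ∀ u, {g | g ∈ G ∧ src g ∉ Cl c d k F u ∧ tgt g ∉ Cl c d k F u} ∩ AE c d k =
      {g | g ∈ G' ∧ src g ∉ Cl c d k F' u ∧ tgt g ∉ Cl c d k F' u} ∩ AE c d k := by
    intro u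
    rw [e1 u]
    ext g
    have h2 : g ∈ G ∩ AE c d k ↔ g ∈ G' ∩ AE c d k := by rw [h']
    simp only [Set.mem_inter_iff] at h2 ⊢
    constructor
    · rintro ⟨⟨a1, a2⟩, a3⟩
      exact ⟨⟨(h2.1 ⟨a1, a3⟩).1, a2⟩, a3⟩
    · rintro ⟨⟨a1, a2⟩, a3⟩
      exact ⟨⟨(h2.2 ⟨a1, a3⟩).1, a2⟩, a3⟩
  unfold XA
  simp only [e1] at e2 ⊢
  simp only [e2]

theorem Lc_XA (c : ℤ × ℤ) (d k : ℕ) :
    Lc (blk c k \ blk c d) (fun F G => XA c d k ↑F ↑G) := by
  intro F G
  have h : ∀ X : Finset Edg, (X : Set Edg) ∩ AE c d k =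
      ((X ∩ (blk c k \ blk c d) : Finset Edg) : Set Edg) ∩ AE c d k := by
    intro X
    unfold AE
    rw [coe_inter, Set.inter_assoc, Set.inter_self]
  exact XA_congr (h F) (h G)

theorem XE_congr {e : Edg} {m : ℕ} {F G F' G' : Set Edg}
    (h : (F \ {e}) ∩ ↑(blk (src e) m) = (F' \ {e}) ∩ ↑(blk (src e) m))
    (h' : (G \ {e}) ∩ ↑(blk (src e) m) = (G' \ {e}) ∩ ↑(blk (src e) m)) :
    XE e m F G ↔ XE e m F' G' := by
  have e1 : ∀ x, CB (src e) m (F \ {e}) x = CB (src e) m (F' \ {e}) x := by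
    intro x
    unfold CB
    rw [h]
  have e2 : ∀ x, {g | g ∈ G \ {e} ∧ src g ∉ CB (src e) m (F \ {e}) x ∧
      tgt g ∉ CB (src e) m (F \ {e}) x} ∩ ↑(blk (src e) m) =
      {g | g ∈ G' \ {e} ∧ src g ∉ CB (src e) m (F' \ {e}) x ∧
      tgt g ∉ CB (src e) m (F' \ {e}) x} ∩ ↑(blk (src e) m) := by
    intro x
    rw [e1 x]
    ext g
    have h2 : g ∈ (G \ {e}) ∩ ↑(blk (src e) m) ↔ g ∈ (G' \ {e}) ∩ ↑(blk (src e) m) := by rw [h']
    simp only [Set.mem_inter_iff] at h2 ⊢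
    constructor
    · rintro ⟨⟨a1, a2⟩, a3⟩
      exact ⟨⟨(h2.1 ⟨a1, a3⟩).1, a2⟩, a3⟩
    · rintro ⟨⟨a1, a2⟩, a3⟩
      exact ⟨⟨(h2.2 ⟨a1, a3⟩).1, a2⟩, a3⟩
  unfold XE
  simp only [e1] at e2 ⊢
  simp only [e2]

theorem Lc_XE (e : Edg) (m : ℕ) :
    Lc (blk (src e) m \ {e}) (fun F G => XE e m ↑F ↑G) := by
  intro F G
  have h : ∀ X : Finset Edg, ((X : Set Edg) \ {e}) ∩ ↑(blk (src e) m) =
      (((X ∩ (blk (src e) m \ {e}) : Finset Edg) : Set Edg) \ {e}) ∩ ↑(blk (src e) m) := by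
    intro X
    ext g
    simp only [Set.mem_inter_iff, Set.mem_sdiff, Set.mem_singleton_iff, coe_inter, coe_sdiff,
      coe_singleton]
    tauto
  exact XE_congr (h F) (h G)

theorem Lc_XE' (e : Edg) (m : ℕ) :
    Lc (blk (src e) m \ {e}) (fun F G => XE' e m ↑F ↑G) := by
  intro F G
  exact imp_congr_right fun _ => Lc_XE e m F G

/-! ### geometry -/

theorem blk_bd {c : ℤ × ℤ} {t : ℕ} {e : Edg} (h : e ∈ blk c t) :
    c.1 - t ≤ e.1 ∧ e.1 ≤ c.1 + t ∧ c.2 - t ≤ e.2.1 ∧ e.2.1 ≤ c.2 + t := by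
  obtain ⟨x, y, b⟩ := e
  unfold blk at h
  cases b
  · rw [mem_RE_false] at h
    simp only
    omega
  · rw [mem_RE_true] at h
    simp only
    omega

theorem blk_of {e : Edg} {c : ℤ × ℤ} {t : ℕ}
    (h : (c.1 - t ≤ e.1 ∧ e.1 < c.1 + t) ∧ (c.2 - t ≤ e.2.1 ∧ e.2.1 < c.2 + t)) :
    e ∈ blk c t := by
  unfold blk
  obtain ⟨x, y, _ | _⟩ := e
  · rw [mem_RE_false]
    simp only at h
    omega
  · rw [mem_RE_true]
    simp only at h
    omega

theorem nrm_le_of_mem {c : ℤ × ℤ} {t : ℕ} {e : Edg} (h : e ∈ blk c t) : nrm c e ≤ t := by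
  have := blk_bd h
  unfold nrm
  omega

theorem mem_of_nrm_lt {c : ℤ × ℤ} {t : ℕ} {e : Edg} (h : nrm c e < t) : e ∈ blk c t := by
  apply blk_of
  unfold nrm at h
  omega

theorem le_nrm_of_not_mem {c : ℤ × ℤ} {t : ℕ} {e : Edg} (h : e ∉ blk c t) : t ≤ nrm c e := by
  by_contra hlt
  exact h (mem_of_nrm_lt (by omega))

theorem nrm_tri (c : ℤ × ℤ) (e g : Edg) : nrm c g ≤ nrm c e + nrm (src e) g ∧
    nrm c e ≤ nrm c g + nrm (src e) g := by
  unfold nrm src
  simp only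
  omega

/-! ### sums -/

theorem sum_rpow (N : ℕ) :
    ∑ j ∈ range N, ((j : ℝ) + 1) ^ (-(1 / 4 : ℝ)) ≤ (4 / 3) * (N : ℝ) ^ (3 / 4 : ℝ) := by
  induction N with
  | zero =>
    simp
  | succ N ih =>
    rw [sum_range_succ]
    have hx : (0 : ℝ) < (N : ℝ) + 1 := by positivity
    have h1 : ((N : ℝ)) ^ (3 / 4 : ℝ) ≤
        ((N : ℝ) + 1) ^ (3 / 4 : ℝ) - 3 / 4 * ((N : ℝ) + 1) ^ (-(1 / 4 : ℝ)) := by
      have e1 : (N : ℝ) = ((N : ℝ) + 1) * (1 + -(1 / ((N : ℝ) + 1))) := by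
        field_simp
        ring
      have e2 : -1 ≤ -(1 / ((N : ℝ) + 1)) := by
        rw [neg_le_neg_iff, div_le_one hx]
        have : (0 : ℝ) ≤ N := Nat.cast_nonneg N
        linarith
      have e3 := rpow_one_add_le_one_add_mul_self e2 (p := 3 / 4) (by norm_num) (by norm_num)
      have e4 : ((N : ℝ) + 1) ^ (3 / 4 : ℝ) * (1 / ((N : ℝ) + 1)) =
          ((N : ℝ) + 1) ^ (-(1 / 4 : ℝ)) := by
        rw [one_div, ← Real.rpow_neg_one, ← Real.rpow_add hx]
        norm_num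
      calc ((N : ℝ)) ^ (3 / 4 : ℝ) =
            (((N : ℝ) + 1) * (1 + -(1 / ((N : ℝ) + 1)))) ^ (3 / 4 : ℝ) := by rw [← e1]
        _ = ((N : ℝ) + 1) ^ (3 / 4 : ℝ) * (1 + -(1 / ((N : ℝ) + 1))) ^ (3 / 4 : ℝ) := by
            rw [Real.mul_rpow hx.le (by linarith)]
        _ ≤ ((N : ℝ) + 1) ^ (3 / 4 : ℝ) * (1 + 3 / 4 * -(1 / ((N : ℝ) + 1))) :=
            mul_le_mul_of_nonneg_left e3 (by positivity)
        _ = ((N : ℝ) + 1) ^ (3 / 4 : ℝ) -
              3 / 4 * (((N : ℝ) + 1) ^ (3 / 4 : ℝ) * (1 / ((N : ℝ) + 1))) := by ring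
        _ = _ := by rw [e4]
    push_cast
    linarith

theorem card_nrm (c : ℤ × ℤ) (T : Finset Edg) {j : ℕ} (hj : 1 ≤ j) :
    ((T.filter (fun e => nrm c e = j)).card : ℝ) ≤ 24 * j := by
  have hsub : T.filter (fun e => nrm c e = j) ⊆
      (({c.1 - (j : ℤ), c.1 + (j : ℤ)} : Finset ℤ) ×ˢ
        (Icc (c.2 - (j : ℤ)) (c.2 + (j : ℤ)) ×ˢ (univ : Finset Bool))) ∪
      (Icc (c.1 - (j : ℤ)) (c.1 + (j : ℤ)) ×ˢ
        (({c.2 - (j : ℤ), c.2 + (j : ℤ)} : Finset ℤ) ×ˢ (univ : Finset Bool))) := by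
    intro e he
    rw [mem_filter] at he
    have h := he.2
    unfold nrm at h
    simp only [mem_union, mem_product, mem_insert, mem_singleton, mem_Icc, mem_univ, and_true]
    omega
  have h1 := card_le_card hsub
  have h2 : ((({c.1 - (j : ℤ), c.1 + (j : ℤ)} : Finset ℤ) ×ˢ
        (Icc (c.2 - (j : ℤ)) (c.2 + (j : ℤ)) ×ˢ (univ : Finset Bool))) ∪
      (Icc (c.1 - (j : ℤ)) (c.1 + (j : ℤ)) ×ˢ
        (({c.2 - (j : ℤ), c.2 + (j : ℤ)} : Finset ℤ) ×ˢ (univ : Finset Bool)))).card ≤ 24 * j := by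
    refine (card_union_le _ _).trans ?_
    simp only [card_product, Int.card_Icc, card_univ, Fintype.card_bool]
    have c1 : ({c.1 - (j : ℤ), c.1 + (j : ℤ)} : Finset ℤ).card ≤ 2 := card_le_two
    have c2 : ({c.2 - (j : ℤ), c.2 + (j : ℤ)} : Finset ℤ).card ≤ 2 := card_le_two
    have c3 : (c.2 + (j : ℤ) + 1 - (c.2 - (j : ℤ))).toNat = 2 * j + 1 := by omega
    have c4 : (c.1 + (j : ℤ) + 1 - (c.1 - (j : ℤ))).toNat = 2 * j + 1 := by omega
    rw [c3, c4]
    nlinarith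
  exact_mod_cast h1.trans h2

theorem sum_nrm (c : ℤ × ℤ) (N : ℕ) (T : Finset Edg)
    (hT : ∀ e ∈ T, 1 ≤ nrm c e ∧ nrm c e ≤ N) :
    ∑ e ∈ T, ((nrm c e : ℕ) : ℝ) ^ (-(5 / 4 : ℝ)) ≤ 32 * (N : ℝ) ^ (3 / 4 : ℝ) := by
  have hmaps : ∀ e ∈ T, nrm c e - 1 ∈ range N := by
    intro e he
    have := hT e he
    rw [mem_range]
    omega
  rw [← sum_fiberwise_of_maps_to hmaps]
  calc ∑ j ∈ range N, ∑ e ∈ T.filter (fun e => nrm c e - 1 = j),
        ((nrm c e : ℕ) : ℝ) ^ (-(5 / 4 : ℝ))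
      ≤ ∑ j ∈ range N, 24 * ((j : ℝ) + 1) ^ (-(1 / 4 : ℝ)) := by
        refine sum_le_sum fun j hj => ?_
        have e1 : T.filter (fun e => nrm c e - 1 = j) = T.filter (fun e => nrm c e = j + 1) := by
          ext e
          simp only [mem_filter]
          constructor
          · rintro ⟨h, h'⟩
            have := hT e h
            exact ⟨h, by omega⟩
          · rintro ⟨h, h'⟩
            exact ⟨h, by omega⟩
        rw [e1]
        have e2 : ∑ e ∈ T.filter (fun e => nrm c e = j + 1), ((nrm c e : ℕ) : ℝ) ^ (-(5 / 4 : ℝ)) =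
            ((T.filter (fun e => nrm c e = j + 1)).card : ℝ) *
              ((j : ℝ) + 1) ^ (-(5 / 4 : ℝ)) := by
          rw [← nsmul_eq_mul, ← sum_const]
          refine sum_congr rfl fun e he => ?_
          rw [(mem_filter.1 he).2]
          push_cast
          rfl
        rw [e2]
        have e3 := card_nrm c T (j := j + 1) (by omega)
        have hx : (0 : ℝ) < (j : ℝ) + 1 := by positivity
        have e4 : ((j : ℝ) + 1) ^ (-(1 / 4 : ℝ)) =
            ((j : ℝ) + 1) * ((j : ℝ) + 1) ^ (-(5 / 4 : ℝ)) := by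
          have := Real.rpow_add hx 1 (-(5 / 4 : ℝ))
          rw [Real.rpow_one] at this
          rw [← this]
          norm_num
        rw [e4]
        push_cast at e3
        have h5 : 0 ≤ ((j : ℝ) + 1) ^ (-(5 / 4 : ℝ)) := by positivity
        nlinarith
    _ = 24 * ∑ j ∈ range N, ((j : ℝ) + 1) ^ (-(1 / 4 : ℝ)) := by rw [mul_sum]
    _ ≤ 24 * ((4 / 3) * (N : ℝ) ^ (3 / 4 : ℝ)) :=
        mul_le_mul_of_nonneg_left (sum_rpow N) (by norm_num)
    _ = 32 * (N : ℝ) ^ (3 / 4 : ℝ) := by ring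

end Pool.Agent.N861.EW
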