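import Pool.Agent.N116.EW.Stm
import Pool.Agent.Y381.SN.AF4
import Pool.Agent.N861.EW.Pair

/-!
# Mixed four arms, the upper configuration critical: the exponent `5/4`
-/

set_option autoImplicit false

namespace Pool.Agent.N861.EW

open H974 H12S H389NS H984N H984P H342P Finset
open Pool.Agent.W424.OD (AE Cl A3v)
open Pool.Agent.N116.EW

theorem core (h1 : S_XEsub) (h3 : S_DICHA) :
    ∃ M t : ℝ, 1 ≤ M ∧ 0 < t ∧ ∀ (n : ℕ) (η : ℝ), 0 ≤ η → η ≤ 1 →
      η * (n : ℝ) ^ (3 / 4 : ℝ) ≤ t →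
      ∀ (N : ℕ) (c : ℤ × ℤ) (d k : ℕ), k - d ≤ N → 1 ≤ d → d ≤ k → k ≤ n → ∀ S : Finset Edg,
        blk c k ⊆ S →
        PC false η S (fun F G => XA c d k ↑F ↑G) ≤ M * ((d : ℝ) / k) ^ (5 / 4 : ℝ) := by
  obtain ⟨C, hC, hsharp⟩ := Pool.Agent.Y554.SN.A4a_sharp
  obtain ⟨K, hK⟩ : ∃ K : ℝ, K = (48 : ℝ) ^ (5 / 4 : ℝ) := ⟨_, rfl⟩
  have hK0 : 0 < K := by rw [hK]; positivity
  obtain ⟨M, hM⟩ : ∃ M : ℝ, M = 2 * (36 * C) + 16 := ⟨_, rfl⟩
  have hM1 : 16 ≤ M := by rw [hM]; linarith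
  obtain ⟨t, ht⟩ : ∃ t : ℝ, t = 1 / (32 * K * M ^ 2) := ⟨_, rfl⟩
  have hM0 : 0 < M := by linarith
  have ht0 : 0 < t := by rw [ht]; positivity
  refine ⟨M, t, by linarith, ht0, ?_⟩
  intro n η h0 h1' hη N
  induction N using Nat.strong_induction_on with
  | _ N ih =>
  intro c d k hN hd hdk hkn S hS
  have hd0 : (0 : ℝ) < d := by exact_mod_cast hd
  have hk0 : (0 : ℝ) < k := by
    have : (0 : ℕ) < k := by omega
    exact_mod_cast this
  have hdk0 : 0 < (d : ℝ) / k := div_pos hd0 hk0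
  by_cases h4 : k < 4 * d
  · -- trivial case
    have e1 : (1 / 4 : ℝ) ≤ (d : ℝ) / k := by
      rw [div_le_div_iff₀ (by norm_num) hk0]
      have : (k : ℝ) < 4 * d := by exact_mod_cast h4
      linarith
    have e2 : (1 / 4 : ℝ) ^ (5 / 4 : ℝ) ≤ ((d : ℝ) / k) ^ (5 / 4 : ℝ) :=
      Real.rpow_le_rpow (by norm_num) e1 (by norm_num)
    have e3 : (1 / 4 : ℝ) ^ (2 : ℝ) ≤ (1 / 4 : ℝ) ^ (5 / 4 : ℝ) :=
      Real.rpow_le_rpow_of_exponent_ge (by norm_num) (by norm_num) (by norm_num)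
    have e4 : (1 / 4 : ℝ) ^ (2 : ℝ) = 1 / 16 := by
      rw [Real.rpow_two]; norm_num
    have e5 := PC_le_one (b := false) h0 h1' S (fun F G => XA c d k ↑F ↑G)
    have e6 : 1 / 16 ≤ ((d : ℝ) / k) ^ (5 / 4 : ℝ) := by rw [← e4]; exact e3.trans e2
    nlinarith
  · push Not at h4
    have hηk : η * (k : ℝ) ^ (3 / 4 : ℝ) ≤ t := by
      refine le_trans ?_ hη
      refine mul_le_mul_of_nonneg_left ?_ h0
      exact Real.rpow_le_rpow hk0.le (by exact_mod_cast hkn) (by norm_num)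
    obtain ⟨T, hT⟩ : ∃ T : Finset Edg, T = blk c (k / 2) \ blk c (2 * d) := ⟨_, rfl⟩
    have hTD : ∀ e ∈ T, 2 * d ≤ nrm c e ∧ nrm c e ≤ k / 2 := by
      intro e he
      rw [hT, mem_sdiff] at he
      exact ⟨le_nrm_of_not_mem he.2, nrm_le_of_mem he.1⟩
    -- the dichotomy
    have hstep : PC false η S (fun F G => XA c d k ↑F ↑G) ≤
        PC false η S (fun _ G => A4a c (2 * d) (k / 2) ↑G) +
        ∑ e ∈ T, PC false η S (fun F G => (e ∈ G ∧ e ∉ F) ∧ (XE' e (nrm c e / 4) ↑F ↑G ∧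
          (XA c d (nrm c e / 2) ↑F ↑G ∧ XA c (2 * nrm c e) k ↑F ↑G))) := by
      refine le_trans (PC_mono h0 h1' ?_) (le_trans (PC_or_le h0 h1' S
        (fun _ G => A4a c (2 * d) (k / 2) ↑G)
        (fun F G => ∃ e ∈ T, (e ∈ G ∧ e ∉ F) ∧ (XE' e (nrm c e / 4) ↑F ↑G ∧
          (XA c d (nrm c e / 2) ↑F ↑G ∧ XA c (2 * nrm c e) k ↑F ↑G)))) ?_)
      · intro F G hFG hX
        rcases h3 c d k ↑F ↑G hd h4 (by exact_mod_cast hFG) hX with h | h
        · exact Or.inl h
        · obtain ⟨e, he1, he2, he3, he4, he5, he6, he7⟩ := h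
          refine Or.inr ⟨e, by rw [hT, mem_sdiff]; exact ⟨he1, he2⟩, ⟨?_, ?_⟩, he5, he6, he7⟩
          · exact_mod_cast he3
          · exact_mod_cast he4
      · exact add_le_add_right (PC_exists_le h0 h1' S T _) _
    -- the first term
    have hfirst : PC false η S (fun _ G => A4a c (2 * d) (k / 2) ↑G) ≤
        36 * C * ((d : ℝ) / k) ^ (5 / 4 : ℝ) := by
      rw [PC_up_false η S (fun G => A4a c (2 * d) (k / 2) ↑G)]
      have e1 := hsharp c (2 * d) (k / 2) (by omega) (by omega) S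
        ((blk_mono (Nat.div_le_self k 2)).trans hS)
      refine e1.trans ?_
      have e2 : (k : ℝ) ≤ 3 * ((k / 2 : ℕ) : ℝ) := by
        have : k ≤ 3 * (k / 2) := by omega
        exact_mod_cast this
      have e3 : (0 : ℝ) < ((k / 2 : ℕ) : ℝ) := by
        have : 0 < k / 2 := by omega
        exact_mod_cast this
      have e4 : ((2 * d : ℕ) : ℝ) / ((k / 2 : ℕ) : ℝ) ≤ 6 * ((d : ℝ) / k) := by
        push_cast
        rw [mul_div_assoc', div_le_div_iff₀ e3 hk0]
        nlinarith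
      have e5 : (((2 * d : ℕ) : ℝ) / ((k / 2 : ℕ) : ℝ)) ^ (5 / 4 : ℝ) ≤
          36 * ((d : ℝ) / k) ^ (5 / 4 : ℝ) := by
        calc _ ≤ (6 * ((d : ℝ) / k)) ^ (5 / 4 : ℝ) :=
              Real.rpow_le_rpow (by positivity) e4 (by norm_num)
          _ = (6 : ℝ) ^ (5 / 4 : ℝ) * ((d : ℝ) / k) ^ (5 / 4 : ℝ) :=
              Real.mul_rpow (by norm_num) hdk0.le
          _ ≤ (6 : ℝ) ^ (2 : ℝ) * ((d : ℝ) / k) ^ (5 / 4 : ℝ) :=
              mul_le_mul_of_nonneg_right
                (Real.rpow_le_rpow_of_exponent_le (by norm_num) (by norm_num)) (by positivity)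
          _ = 36 * ((d : ℝ) / k) ^ (5 / 4 : ℝ) := by
              rw [Real.rpow_two]; norm_num
      calc _ ≤ C * (36 * ((d : ℝ) / k) ^ (5 / 4 : ℝ)) := mul_le_mul_of_nonneg_left e5 hC.le
        _ = _ := by ring
    -- the terms of the sum
    have hterm : ∀ e ∈ T, PC false η S (fun F G => (e ∈ G ∧ e ∉ F) ∧
        (XE' e (nrm c e / 4) ↑F ↑G ∧
          (XA c d (nrm c e / 2) ↑F ↑G ∧ XA c (2 * nrm c e) k ↑F ↑G))) ≤
        η / 2 * M ^ 3 * K * ((d : ℝ) / k) ^ (5 / 4 : ℝ) *
          ((nrm c e : ℕ) : ℝ) ^ (-(5 / 4 : ℝ)) := by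
      intro e he
      obtain ⟨hD1, hD2⟩ := hTD e he
      obtain ⟨D, hD⟩ : ∃ D, D = nrm c e := ⟨_, rfl⟩
      rw [← hD] at hD1 hD2 ⊢
      have hD0 : (0 : ℝ) < D := by
        have : 0 < D := by omega
        exact_mod_cast this
      -- locality and disjointness
      have g1 : ∀ g ∈ blk (src e) (D / 4), nrm (src e) g ≤ D / 4 := fun g hg => nrm_le_of_mem hg
      have g2 : ∀ g ∈ blk (src e) (D / 4), g ∈ blk c (2 * D) := by
        intro g hg
        apply mem_of_nrm_lt
        have := (nrm_tri c e g).1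
        have := g1 g hg
        omega
      have g3 : ∀ g ∈ blk (src e) (D / 4), g ∉ blk c (D / 2) := by
        intro g hg hg'
        have := (nrm_tri c e g).2
        have := g1 g hg
        have := nrm_le_of_mem hg'
        omega
      have g4 : e ∉ blk c (D / 2) := by
        intro h
        have := nrm_le_of_mem h
        omega
      have g5 : e ∈ blk c (2 * D) := mem_of_nrm_lt (by omega)
      have s1 : blk (src e) (D / 4) ⊆ S := by
        intro g hg
        exact hS (blk_mono (by omega) (g2 g hg))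
      have s2 : blk c (D / 2) ⊆ S := (blk_mono (by omega)).trans hS
      have s3 : blk c (2 * D) ⊆ S := (blk_mono (by omega)).trans hS
      rw [PC_indep (T1 := {e}) (T2 := (blk (src e) (D / 4) \ {e}) ∪
          ((blk c (D / 2) \ blk c d) ∪ (blk c k \ blk c (2 * D)))) ?_ ?_ ?_ (Lc_flip e)
          ((Lc_XE' e (D / 4)).and ((Lc_XA c d (D / 2)).and (Lc_XA c (2 * D) k))),
        PC_indep (T1 := blk (src e) (D / 4) \ {e}) (T2 :=
          ((blk c (D / 2) \ blk c d) ∪ (blk c k \ blk c (2 * D)))) ?_ ?_ ?_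
          (Lc_XE' e (D / 4)) ((Lc_XA c d (D / 2)).and (Lc_XA c (2 * D) k)),
        PC_indep (T1 := blk c (D / 2) \ blk c d) (T2 := blk c k \ blk c (2 * D)) ?_ ?_ ?_
          (Lc_XA c d (D / 2)) (Lc_XA c (2 * D) k), PC_flip (s3 g5)]
      rotate_left
      · exact sdiff_subset.trans s2
      · exact sdiff_subset.trans hS
      · rw [disjoint_left]
        intro g hg hg'
        rw [mem_sdiff] at hg hg'
        exact hg'.2 (blk_mono (by omega) hg.1)
      · exact sdiff_subset.trans s1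
      · exact union_subset (sdiff_subset.trans s2) (sdiff_subset.trans hS)
      · rw [disjoint_left]
        intro g hg hg'
        rw [mem_sdiff] at hg
        rw [mem_union, mem_sdiff, mem_sdiff] at hg'
        rcases hg' with hg' | hg'
        · exact g3 g hg.1 hg'.1
        · exact hg'.2 (g2 g hg.1)
      · rw [singleton_subset_iff]
        exact s3 g5
      · exact union_subset (sdiff_subset.trans s1)
          (union_subset (sdiff_subset.trans s2) (sdiff_subset.trans hS))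
      · rw [disjoint_singleton_left, mem_union, mem_union, mem_sdiff, mem_sdiff, mem_sdiff]
        rintro (h | h | h)
        · exact h.2 (mem_singleton_self e)
        · exact g4 h.1
        · exact h.2 g5
      -- the bounds
      have b2 : PC false η S (fun F G => XE' e (D / 4) ↑F ↑G) ≤
          M * (8 / (D : ℝ)) ^ (5 / 4 : ℝ) := by
        by_cases hD4 : 4 ≤ D
        · have e1 : PC false η S (fun F G => XE' e (D / 4) ↑F ↑G) ≤
              PC false η S (fun F G => XA (src e) 1 (D / 4) ↑F ↑G) := by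
            refine PC_mono h0 h1' fun F G _ h => ?_
            exact (h1 e (D / 4) ↑F ↑G (h (by omega))).1 1 le_rfl (by omega)
          have e2 := ih (D / 4 - 1) (by omega) (src e) 1 (D / 4) le_rfl le_rfl (by omega)
            (by omega) S s1
          refine e1.trans (e2.trans ?_)
          refine mul_le_mul_of_nonneg_left ?_ hM0.le
          refine Real.rpow_le_rpow (by positivity) ?_ (by norm_num)
          have e3 : (D : ℝ) ≤ 8 * ((D / 4 : ℕ) : ℝ) := by
            have : D ≤ 8 * (D / 4) := by omega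
            exact_mod_cast this
          have e4 : (0 : ℝ) < ((D / 4 : ℕ) : ℝ) := by
            have : 0 < D / 4 := by omega
            exact_mod_cast this
          push_cast
          rw [div_le_div_iff₀ e4 hD0]
          linarith
        · have e1 := PC_le_one (b := false) h0 h1' S (fun F G => XE' e (D / 4) ↑F ↑G)
          have e2 : (1 : ℝ) ≤ (8 / (D : ℝ)) ^ (5 / 4 : ℝ) := by
            apply Real.one_le_rpow
            · rw [le_div_iff₀ hD0]
              have : (D : ℝ) < 4 := by exact_mod_cast not_le.1 hD4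
              linarith
            · norm_num
          nlinarith
      have b3 : PC false η S (fun F G => XA c d (D / 2) ↑F ↑G) ≤
          M * (3 * (d : ℝ) / D) ^ (5 / 4 : ℝ) := by
        have e2 := ih (D / 2 - d) (by omega) c d (D / 2) le_rfl hd (by omega)
            (by omega) S s2
        refine e2.trans ?_
        refine mul_le_mul_of_nonneg_left ?_ hM0.le
        refine Real.rpow_le_rpow (by positivity) ?_ (by norm_num)
        have e3 : (D : ℝ) ≤ 3 * ((D / 2 : ℕ) : ℝ) := by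
          have : D ≤ 3 * (D / 2) := by omega
          exact_mod_cast this
        have e4 : (0 : ℝ) < ((D / 2 : ℕ) : ℝ) := by
          have : 0 < D / 2 := by omega
          exact_mod_cast this
        rw [div_le_div_iff₀ e4 hD0]
        nlinarith
      have b4 : PC false η S (fun F G => XA c (2 * D) k ↑F ↑G) ≤
          M * (2 * (D : ℝ) / k) ^ (5 / 4 : ℝ) := by
        have e2 := ih (k - 2 * D) (by omega) c (2 * D) k le_rfl (by omega) (by omega) hkn S hS
        push_cast at e2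
        exact e2
      have n2 := PC_nonneg (b := false) h0 h1' S (fun F G => XE' e (D / 4) ↑F ↑G)
      have n3 := PC_nonneg (b := false) h0 h1' S (fun F G => XA c d (D / 2) ↑F ↑G)
      have n4 := PC_nonneg (b := false) h0 h1' S (fun F G => XA c (2 * D) k ↑F ↑G)
      calc η / 2 * (PC false η S (fun F G => XE' e (D / 4) ↑F ↑G) *
            (PC false η S (fun F G => XA c d (D / 2) ↑F ↑G) *
              PC false η S (fun F G => XA c (2 * D) k ↑F ↑G)))
          ≤ η / 2 * ((M * (8 / (D : ℝ)) ^ (5 / 4 : ℝ)) *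
            ((M * (3 * (d : ℝ) / D) ^ (5 / 4 : ℝ)) * (M * (2 * (D : ℝ) / k) ^ (5 / 4 : ℝ)))) := by
            gcongr
        _ = η / 2 * M ^ 3 * ((8 / (D : ℝ)) ^ (5 / 4 : ℝ) * (3 * (d : ℝ) / D) ^ (5 / 4 : ℝ) *
              (2 * (D : ℝ) / k) ^ (5 / 4 : ℝ)) := by ring
        _ = η / 2 * M ^ 3 * (K * ((d : ℝ) / k) ^ (5 / 4 : ℝ) * (D : ℝ) ^ (-(5 / 4 : ℝ))) := by
            congr 1
            rw [← Real.mul_rpow (by positivity) (by positivity),
              ← Real.mul_rpow (by positivity) (by positivity), hK, Real.rpow_neg hD0.le,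
              ← Real.inv_rpow hD0.le, ← Real.mul_rpow (by positivity) (by positivity),
              ← Real.mul_rpow (by positivity) (by positivity)]
            congr 1
            field_simp
            ring
        _ = _ := by ring
    -- the sum
    have hsum : ∑ e ∈ T, PC false η S (fun F G => (e ∈ G ∧ e ∉ F) ∧
        (XE' e (nrm c e / 4) ↑F ↑G ∧
          (XA c d (nrm c e / 2) ↑F ↑G ∧ XA c (2 * nrm c e) k ↑F ↑G))) ≤
        M / 2 * ((d : ℝ) / k) ^ (5 / 4 : ℝ) := by
      have e1 := sum_nrm c (k / 2) T (fun e he => ⟨by have := hTD e he; omega, (hTD e he).2⟩)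
      have e2 : ((k / 2 : ℕ) : ℝ) ^ (3 / 4 : ℝ) ≤ (k : ℝ) ^ (3 / 4 : ℝ) :=
        Real.rpow_le_rpow (by positivity) (by exact_mod_cast Nat.div_le_self k 2) (by norm_num)
      have e3 : 0 ≤ η / 2 * M ^ 3 * K * ((d : ℝ) / k) ^ (5 / 4 : ℝ) := by positivity
      calc _ ≤ ∑ e ∈ T, η / 2 * M ^ 3 * K * ((d : ℝ) / k) ^ (5 / 4 : ℝ) *
            ((nrm c e : ℕ) : ℝ) ^ (-(5 / 4 : ℝ)) := sum_le_sum hterm
        _ = η / 2 * M ^ 3 * K * ((d : ℝ) / k) ^ (5 / 4 : ℝ) *
            ∑ e ∈ T, ((nrm c e : ℕ) : ℝ) ^ (-(5 / 4 : ℝ)) := by rw [mul_sum]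
        _ ≤ η / 2 * M ^ 3 * K * ((d : ℝ) / k) ^ (5 / 4 : ℝ) * (32 * (k : ℝ) ^ (3 / 4 : ℝ)) :=
            mul_le_mul_of_nonneg_left (e1.trans (mul_le_mul_of_nonneg_left e2 (by norm_num))) e3
        _ = (η * (k : ℝ) ^ (3 / 4 : ℝ)) * (16 * M ^ 3 * K * ((d : ℝ) / k) ^ (5 / 4 : ℝ)) := by
            ring
        _ ≤ t * (16 * M ^ 3 * K * ((d : ℝ) / k) ^ (5 / 4 : ℝ)) :=
            mul_le_mul_of_nonneg_right hηk (by positivity)
        _ = M / 2 * ((d : ℝ) / k) ^ (5 / 4 : ℝ) := by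
            rw [ht]
            field_simp
            ring
    have hfin : 36 * C + M / 2 ≤ M := by rw [hM]; linarith
    have hpos : 0 ≤ ((d : ℝ) / k) ^ (5 / 4 : ℝ) := by positivity
    calc _ ≤ 36 * C * ((d : ℝ) / k) ^ (5 / 4 : ℝ) + M / 2 * ((d : ℝ) / k) ^ (5 / 4 : ℝ) :=
          hstep.trans (add_le_add hfirst hsum)
      _ = (36 * C + M / 2) * ((d : ℝ) / k) ^ (5 / 4 : ℝ) := by ring
      _ ≤ M * ((d : ℝ) / k) ^ (5 / 4 : ℝ) := mul_le_mul_of_nonneg_right hfin hpos

/-- EW3: mixed four arms in a box have the exponent `5/4` if the upper configuration is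
critical. -/
theorem xeD (_h1 : S_XAsub) (h2 : S_XEsub) (h3 : S_DICHA) : S_XE false := by
  obtain ⟨M, t, hM, ht, h⟩ := core h2 h3
  refine ⟨M, t, by linarith, ht, ?_⟩
  intro n η _ h0 h1 hη e m hm hmn S hS
  have e1 : PC false η S (fun F G => XE e m ↑F ↑G) ≤
      PC false η S (fun F G => XA (src e) 1 m ↑F ↑G) := by
    refine PC_mono h0 h1 fun F G _ hX => ?_
    exact (h2 e m ↑F ↑G hX).1 1 le_rfl hm
  have e2 := h n η h0 h1 hη (m - 1) (src e) 1 m le_rfl le_rfl hm hmn S hS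
  refine e1.trans (e2.trans (le_of_eq ?_))
  have hm0 : (0 : ℝ) < m := by exact_mod_cast hm
  rw [Real.rpow_neg hm0.le, ← Real.inv_rpow hm0.le]
  push_cast
  rw [one_div]

end Pool.Agent.N861.EW
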